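import Mathlib

/-!
# Average polar volume after Steiner symmetrization (MP_d722ac_gt, S14032): statements of the parts

The body is `K = {x : |x_0|/η + Σ |x_i + κ x_0/η| ≤ 1}` in dimension `m + 1`; its polar is
`Q = {z : |z_i| ≤ 1 (i ≥ 1), |η z_0 - κ Σ z_i| ≤ 1}`.  Here the coordinates `i ≥ 1` are written
`i.succ`, `i : Fin m`.
-/

set_option autoImplicit false

open MeasureTheory
open scoped BigOperators RealInnerProductSpace ENNReal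

namespace W679ST

/-- the body -/
def KK (m : ℕ) (η κ : ℝ) : Set (EuclideanSpace ℝ (Fin (m + 1))) :=
  {x | |x 0| / η + ∑ i : Fin m, |x i.succ + κ * x 0 / η| ≤ 1}

/-- its polar -/
def QQ (m : ℕ) (η κ : ℝ) : Set (EuclideanSpace ℝ (Fin (m + 1))) :=
  {z | (∀ i : Fin m, |z i.succ| ≤ 1) ∧ |η * z 0 - κ * ∑ i : Fin m, z i.succ| ≤ 1}

/-- Steiner symmetral of `K` in the direction `u` -/
def Stn {n : ℕ} (K : Set (EuclideanSpace ℝ (Fin n))) (u : EuclideanSpace ℝ (Fin n)) :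
    Set (EuclideanSpace ℝ (Fin n)) :=
  {w | (∃ s : ℝ, w - (inner ℝ w u) • u + s • u ∈ K) ∧
    ENNReal.ofReal (2 * |inner ℝ w u|) ≤ volume {s : ℝ | w - (inner ℝ w u) • u + s • u ∈ K}}

/-- polar set -/
def Pol {n : ℕ} (K : Set (EuclideanSpace ℝ (Fin n))) : Set (EuclideanSpace ℝ (Fin n)) :=
  {z | ∀ x ∈ K, inner ℝ x z ≤ (1 : ℝ)}

/-- the numbers `r_i = κ + η u_i / u_0` -/
noncomputable def rr {m : ℕ} (η κ : ℝ) (u : EuclideanSpace ℝ (Fin (m + 1))) (i : Fin m) : ℝ :=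
  κ + η * u i.succ / u 0

/-- the subset of the polar of the symmetral: `z = p + s u` with `p` orthogonal to `u`,
`p_i = q_i` for `i ≥ 1` -/
def DD {m : ℕ} (η κ : ℝ) (u : EuclideanSpace ℝ (Fin (m + 1))) :
    Set (EuclideanSpace ℝ (Fin (m + 1))) :=
  {z | ∃ (q : Fin m → ℝ) (s : ℝ), (∀ i, |q i| ≤ 1) ∧ |∑ i, rr η κ u i * q i| ≤ 1 ∧
    |s| ≤ u 0 / η * ∑ i, rr η κ u i * (1 - |q i|) ∧
    z 0 = s * u 0 - (∑ i : Fin m, u i.succ * q i) / u 0 ∧ ∀ i : Fin m, z i.succ = q i + s * u i.succ}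

/-- ST1: elementary facts about the body -/
def S_ST1 : Prop := ∀ (m : ℕ) (η κ : ℝ), 0 < η → 0 ≤ κ →
  Convex ℝ (KK m η κ) ∧ IsCompact (KK m η κ) ∧ (KK m η κ).Nonempty ∧
  (∀ x ∈ KK m η κ, -x ∈ KK m η κ) ∧ (interior (KK m η κ)).Nonempty ∧ Pol (KK m η κ) = QQ m η κ

/-- ST2: geometry -/
def S_ST2 : Prop := ∀ (m : ℕ) (η κ : ℝ) (u : EuclideanSpace ℝ (Fin (m + 1))),
  0 < η → 0 ≤ κ → ‖u‖ = 1 → 0 < u 0 → (∀ i : Fin m, 0 ≤ rr η κ u i) →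
  DD η κ u ⊆ Pol (Stn (KK m η κ) u)

/-- ST3: volume of the polar of the body -/
def S_ST3 : Prop := ∀ (m : ℕ) (η κ : ℝ), 0 < η →
  volume (QQ m η κ) = ENNReal.ofReal (2 ^ (m + 1) / η)

/-- ST4: integrals over the cube -/
def S_ST4 : Prop := ∀ (m : ℕ) (r : Fin m → ℝ), (∀ i, 0 ≤ r i) → ∑ i, r i ^ 2 ≤ 1 →
  ENNReal.ofReal (2 ^ m * (∑ i, r i) / 6) ≤
    ∫⁻ q in {q : Fin m → ℝ | (∀ i, |q i| ≤ 1) ∧ |∑ i, r i * q i| ≤ 1},
      ENNReal.ofReal (∑ i, r i * (1 - |q i|))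

/-- ST5: volume of `DD` -/
def S_ST5 : Prop := ∀ (m : ℕ) (η κ : ℝ) (u : EuclideanSpace ℝ (Fin (m + 1))),
  0 < η → ‖u‖ = 1 → 0 < u 0 → (∀ i : Fin m, 0 ≤ rr η κ u i) →
  ENNReal.ofReal (2 / η) * ∫⁻ q in {q : Fin m → ℝ | (∀ i, |q i| ≤ 1) ∧ |∑ i, rr η κ u i * q i| ≤ 1},
      ENNReal.ofReal (∑ i, rr η κ u i * (1 - |q i|)) ≤
    volume (DD η κ u)

/-- ST6: more than a third of the ball lies in a half space at positive distance -/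
def S_ST6 : Prop := ∀ m : ℕ, ∃ δ : ℝ, 0 < δ ∧
  volume (Metric.ball (0 : EuclideanSpace ℝ (Fin (m + 1))) 1) ≤
    3 * volume {y ∈ Metric.ball (0 : EuclideanSpace ℝ (Fin (m + 1))) 1 | δ < y 0}

end W679ST
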